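import Mathlib
import Pool.Agent.W890.SF.Stm

/-!
# Balancing, second case: a small matching of edges with exactly two vertices in `A`
-/

set_option autoImplicit false

namespace Pool.Agent.W351.SAM

open Finset Pool.Agent.W890.SF

/-- lower bound for binomial coefficients -/
lemma choose_lb (a r k : ℕ) (z : ℝ) (hz : 0 ≤ z) (hr : r ≤ k) (h : z + (k : ℝ) ≤ (a : ℝ)) :
    z ^ r ≤ (k.factorial : ℝ) * (a.choose r : ℝ) := by
  have h1 : (((a + 1 - r : ℕ) : ℝ) ^ r) / (r.factorial : ℝ) ≤ (a.choose r : ℝ) :=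
    Nat.pow_le_choose r a
  have hrf : (0 : ℝ) < (r.factorial : ℝ) := by exact_mod_cast r.factorial_pos
  have h2 : (r.factorial : ℝ) ≤ (k.factorial : ℝ) := by exact_mod_cast Nat.factorial_le hr
  have hra : (r : ℝ) ≤ (a : ℝ) := by
    have : (r : ℝ) ≤ (k : ℝ) := by exact_mod_cast hr
    linarith
  have hra' : r ≤ a := by exact_mod_cast hra
  have h3 : z ≤ ((a + 1 - r : ℕ) : ℝ) := by
    rw [Nat.cast_sub (by omega)]
    push_cast
    have : (r : ℝ) ≤ (k : ℝ) := by exact_mod_cast hr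
    linarith
  have h4 : z ^ r ≤ ((a + 1 - r : ℕ) : ℝ) ^ r := pow_le_pow_left₀ hz h3 r
  rw [div_le_iff₀ hrf] at h1
  calc z ^ r ≤ (a.choose r : ℝ) * (r.factorial : ℝ) := le_trans h4 h1
    _ ≤ (a.choose r : ℝ) * (k.factorial : ℝ) := by
        apply mul_le_mul_of_nonneg_left h2; positivity
    _ = _ := by ring

/-- one greedy step -/
lemma step (k : ℕ) (hk : 3 ≤ k) (δ : ℝ) (hδ0 : 0 < δ) (hδ1 : δ ≤ 1 / (4 * (k : ℝ) ^ 2))
    (hδ2 : δ ≤ (1 / (4 * (k : ℝ))) ^ (k - 1) / (2 * (k.factorial : ℝ) ^ 2))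
    {V : Type} [Fintype V] [DecidableEq V] (hn : 8 * k ^ 2 ≤ Fintype.card V)
    (H : Finset (Finset V)) (A B X : Finset V) (hT : Typ k δ H A B X)
    (Y : Finset V) (hY : (Y.card : ℝ) ≤ (k : ℝ) * (δ * (Fintype.card V : ℝ))) :
    ∃ e ∈ H, e ⊆ A ∪ B ∧ (e ∩ A).card = 2 ∧ Disjoint e Y := by
  classical
  set n : ℝ := (Fintype.card V : ℝ) with hndef
  have hk3 : (3 : ℝ) ≤ (k : ℝ) := by exact_mod_cast hk
  have hk0 : (0 : ℝ) < (k : ℝ) := by linarith
  have hn' : 8 * (k : ℝ) ^ 2 ≤ n := by rw [hndef]; exact_mod_cast hn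
  have hn0 : 0 < n := by nlinarith
  set z : ℝ := n / (4 * (k : ℝ)) with hzdef
  have hz0 : 0 < z := by positivity
  have hzk : 2 * (k : ℝ) ≤ z := by
    rw [hzdef, le_div_iff₀ (by positivity)]
    nlinarith
  have hzn : n = 4 * (k : ℝ) * z := by rw [hzdef]; field_simp
  -- δ n ≤ z / k
  have hδn : δ * n ≤ z / (k : ℝ) := by
    have h1 : δ * n ≤ 1 / (4 * (k : ℝ) ^ 2) * n := mul_le_mul_of_nonneg_right hδ1 hn0.le
    have h2 : 1 / (4 * (k : ℝ) ^ 2) * n = z / (k : ℝ) := by
      rw [hzdef]; field_simp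
    linarith
  have hkδn : (k : ℝ) * (δ * n) ≤ z := by
    have h1 : (k : ℝ) * (δ * n) ≤ (k : ℝ) * (z / (k : ℝ)) := mul_le_mul_of_nonneg_left hδn hk0.le
    have h2 : (k : ℝ) * (z / (k : ℝ)) = z := by field_simp
    linarith
  have hδn3 : δ * n ≤ z / 3 := by
    have : z / (k : ℝ) ≤ z / 3 := div_le_div_of_nonneg_left hz0.le (by norm_num) hk3
    linarith
  have hYz : (Y.card : ℝ) ≤ z := le_trans hY hkδn
  have hnk : 1 / (k : ℝ) * n = 4 * z := by rw [hzn]; field_simp
  have hA1 := hT.a1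
  have hA2 := hT.a2
  have hxs := hT.xs
  rw [← hndef] at hA1 hA2 hxs
  -- sizes
  have hcov : A.card + B.card + X.card = Fintype.card V := by
    rw [← Finset.card_univ, ← hT.cov, Finset.card_union_of_disjoint, Finset.card_union_of_disjoint hT.dAB]
    rw [Finset.disjoint_union_left]
    exact ⟨hT.dAX, hT.dBX⟩
  have hcov' : (A.card : ℝ) + B.card + X.card = n := by
    rw [hndef]; exact_mod_cast hcov
  have hAlb : 11 / 3 * z ≤ (A.card : ℝ) := by
    have : (1 / (k : ℝ) - δ) * n = 1 / (k : ℝ) * n - δ * n := by ring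
    rw [this, hnk] at hA2
    linarith
  have hBlb : 7 * z ≤ (B.card : ℝ) := by
    have : (1 / (k : ℝ) + δ) * n = 1 / (k : ℝ) * n + δ * n := by ring
    rw [this, hnk] at hA1
    have h12 : 12 * z ≤ n := by
      rw [hzn]; nlinarith
    linarith
  have hAY : 2 * z ≤ ((A \ Y).card : ℝ) := by
    have h1 : A.card - Y.card ≤ (A \ Y).card := Finset.le_card_sdiff _ _
    have h2 : (A.card : ℝ) ≤ ((A \ Y).card : ℝ) + Y.card := by
      have : A.card ≤ (A \ Y).card + Y.card := by omega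
      exact_mod_cast this
    linarith
  have hBY : 3 * z ≤ ((B \ Y).card : ℝ) := by
    have h1 : B.card - Y.card ≤ (B \ Y).card := Finset.le_card_sdiff _ _
    have h2 : (B.card : ℝ) ≤ ((B \ Y).card : ℝ) + Y.card := by
      have : B.card ≤ (B \ Y).card + Y.card := by omega
      exact_mod_cast this
    linarith
  have hBne : (B \ Y).Nonempty := by
    rw [← Finset.card_pos]
    have : (0 : ℝ) < ((B \ Y).card : ℝ) := by linarith
    exact_mod_cast this
  obtain ⟨b, hb⟩ := hBne
  have hbB : b ∈ B := (Finset.mem_sdiff.1 hb).1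
  have hbY : b ∉ Y := (Finset.mem_sdiff.1 hb).2
  have hbA : b ∉ A := fun h => (Finset.disjoint_left.1 hT.dAB h) hbB
  have hBYb : 2 * z ≤ (((B \ Y).erase b).card : ℝ) := by
    rw [Finset.card_erase_of_mem hb, Nat.cast_sub (Finset.card_pos.2 ⟨b, hb⟩)]
    push_cast
    linarith
  have hzz : z + (k : ℝ) ≤ 2 * z := by linarith
  have hc1 := choose_lb (A \ Y).card 2 k z hz0.le (by omega) (by linarith)
  have hc2 := choose_lb ((B \ Y).erase b).card (k - 3) k z hz0.le (by omega) (by linarith)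
  set N1 : ℕ := (A \ Y).card.choose 2 with hN1
  set N2 : ℕ := ((B \ Y).erase b).card.choose (k - 3) with hN2
  -- the candidate sets
  set P : Finset (Finset V) := (((A \ Y).powersetCard 2) ×ˢ (((B \ Y).erase b).powersetCard (k - 3))).image
    (fun p => p.1 ∪ p.2) with hP
  have hPcard : P.card = N1 * N2 := by
    rw [hP, Finset.card_image_of_injOn, Finset.card_product, Finset.card_powersetCard,
      Finset.card_powersetCard]
    rintro ⟨p1, p2⟩ hp ⟨q1, q2⟩ hq hpq
    simp only [Finset.coe_product, Set.mem_prod, Finset.mem_coe, Finset.mem_powersetCard] at hp hq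
    simp only at hpq
    obtain ⟨⟨hp1, -⟩, ⟨hp2, -⟩⟩ := hp
    obtain ⟨⟨hq1, -⟩, ⟨hq2, -⟩⟩ := hq
    have hdis : ∀ x ∈ A, x ∉ B := fun x hx => Finset.disjoint_left.1 hT.dAB hx
    have hp1' : ∀ x ∈ p1, x ∈ A := fun x hx => (Finset.mem_sdiff.1 (hp1 hx)).1
    have hq1' : ∀ x ∈ q1, x ∈ A := fun x hx => (Finset.mem_sdiff.1 (hq1 hx)).1
    have hp2' : ∀ x ∈ p2, x ∈ B := fun x hx =>
      (Finset.mem_sdiff.1 (Finset.mem_of_mem_erase (hp2 hx))).1
    have hq2' : ∀ x ∈ q2, x ∈ B := fun x hx =>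
      (Finset.mem_sdiff.1 (Finset.mem_of_mem_erase (hq2 hx))).1
    have hmem : ∀ x, (x ∈ p1 ∨ x ∈ p2) ↔ (x ∈ q1 ∨ x ∈ q2) := by
      intro x
      have := Finset.ext_iff.1 hpq x
      simpa using this
    have e1 : p1 = q1 := by
      ext x
      constructor
      · intro hx
        rcases (hmem x).1 (Or.inl hx) with h | h
        · exact h
        · exact absurd (hq2' x h) (hdis x (hp1' x hx))
      · intro hx
        rcases (hmem x).2 (Or.inl hx) with h | h
        · exact h
        · exact absurd (hp2' x h) (hdis x (hq1' x hx))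
    have e2 : p2 = q2 := by
      ext x
      constructor
      · intro hx
        rcases (hmem x).1 (Or.inr hx) with h | h
        · exact absurd (hp2' x hx) (hdis x (hq1' x h))
        · exact h
      · intro hx
        rcases (hmem x).2 (Or.inr hx) with h | h
        · exact absurd (hq2' x hx) (hdis x (hp1' x h))
        · exact h
    rw [e1, e2]
  have hPsub : ∀ T ∈ P, T ∈ tys k 2 A B b ∧ Disjoint T Y ∧ b ∉ T ∧ T ⊆ A ∪ B ∧ (T ∩ A).card = 2 := by
    intro T hTP
    rw [hP, Finset.mem_image] at hTP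
    obtain ⟨⟨p1, p2⟩, hp, rfl⟩ := hTP
    simp only [Finset.mem_product, Finset.mem_powersetCard] at hp
    obtain ⟨⟨hp1, hc1'⟩, ⟨hp2, hc2'⟩⟩ := hp
    have hp1A : p1 ⊆ A := fun x hx => (Finset.mem_sdiff.1 (hp1 hx)).1
    have hp2B : p2 ⊆ B := fun x hx => (Finset.mem_sdiff.1 (Finset.mem_of_mem_erase (hp2 hx))).1
    have hp1Y : Disjoint p1 Y := Finset.disjoint_left.2 fun x hx => (Finset.mem_sdiff.1 (hp1 hx)).2
    have hp2Y : Disjoint p2 Y := Finset.disjoint_left.2 fun x hx =>
      (Finset.mem_sdiff.1 (Finset.mem_of_mem_erase (hp2 hx))).2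
    have hdis : Disjoint p1 p2 := Finset.disjoint_of_subset_left hp1A
      (Finset.disjoint_of_subset_right hp2B hT.dAB)
    have hb1 : b ∉ p1 := fun h => hbA (hp1A h)
    have hb2 : b ∉ p2 := fun h => (Finset.mem_erase.1 (hp2 h)).1 rfl
    have hbT : b ∉ p1 ∪ p2 := by
      rw [Finset.mem_union]; tauto
    have hint : (p1 ∪ p2) ∩ A = p1 := by
      ext x
      simp only [Finset.mem_inter, Finset.mem_union]
      constructor
      · rintro ⟨h | h, hx⟩
        · exact h
        · exact absurd (hp2B h) (Finset.disjoint_left.1 hT.dAB hx)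
      · intro h
        exact ⟨Or.inl h, hp1A h⟩
    have hsub : p1 ∪ p2 ⊆ A ∪ B := Finset.union_subset_union hp1A hp2B
    have hint2 : ((p1 ∪ p2) ∩ A).card = 2 := by rw [hint, hc1']
    refine ⟨?_, Finset.disjoint_union_left.2 ⟨hp1Y, hp2Y⟩, hbT, hsub, hint2⟩
    unfold tys
    rw [Finset.mem_filter, Finset.mem_powersetCard]
    refine ⟨⟨?_, ?_⟩, hint2⟩
    · intro x hx
      rw [Finset.mem_erase]
      refine ⟨?_, hsub hx⟩
      rintro rfl
      exact hbT hx
    · rw [Finset.card_union_of_disjoint hdis, hc1', hc2']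
      omega
  by_contra hcon
  push Not at hcon
  -- no candidate is in ty
  have hPnot : ∀ T ∈ P, T ∉ ty k 2 H A B b := by
    intro T hTP hTty
    obtain ⟨h1, h2, h3, h4, h5⟩ := hPsub T hTP
    unfold ty at hTty
    rw [Finset.mem_filter] at hTty
    refine hcon (insert b T) hTty.2 ?_ ?_ ?_
    · intro x hx
      rcases Finset.mem_insert.1 hx with rfl | hx
      · exact Finset.mem_union_right _ hbB
      · exact h4 hx
    · rw [Finset.insert_inter_of_notMem hbA, h5]
    · rw [Finset.disjoint_insert_left]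
      exact ⟨hbY, h2⟩
  have hPle : P.card + (ty k 2 H A B b).card ≤ (tys k 2 A B b).card := by
    rw [← Finset.card_union_of_disjoint]
    · apply Finset.card_le_card
      intro T hT'
      rcases Finset.mem_union.1 hT' with h | h
      · exact (hPsub T h).1
      · exact (Finset.mem_filter.1 h).1
    · rw [Finset.disjoint_left]
      exact hPnot
  have hPle' : (P.card : ℝ) + ((ty k 2 H A B b).card : ℝ) ≤ ((tys k 2 A B b).card : ℝ) := by
    exact_mod_cast hPle
  have hB2 := hT.hB b hbB 2 (Or.inr rfl)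
  rw [← hndef] at hB2
  have hPδ : (P.card : ℝ) ≤ δ * n ^ (k - 1) := by linarith
  rw [hPcard] at hPδ
  push_cast at hPδ
  have hkf : (0 : ℝ) < (k.factorial : ℝ) := by exact_mod_cast k.factorial_pos
  have hprod : z ^ (k - 1) ≤ (k.factorial : ℝ) ^ 2 * ((N1 : ℝ) * (N2 : ℝ)) := by
    have hsplit : k - 1 = 2 + (k - 3) := by omega
    rw [hsplit, pow_add]
    calc z ^ 2 * z ^ (k - 3) ≤ ((k.factorial : ℝ) * (N1 : ℝ)) * ((k.factorial : ℝ) * (N2 : ℝ)) :=
          mul_le_mul hc1 hc2 (by positivity) (by positivity)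
      _ = _ := by ring
  have hδz : δ * n ^ (k - 1) ≤ z ^ (k - 1) / (2 * (k.factorial : ℝ) ^ 2) := by
    calc δ * n ^ (k - 1) ≤ (1 / (4 * (k : ℝ))) ^ (k - 1) / (2 * (k.factorial : ℝ) ^ 2) * n ^ (k - 1) :=
          mul_le_mul_of_nonneg_right hδ2 (by positivity)
      _ = z ^ (k - 1) / (2 * (k.factorial : ℝ) ^ 2) := by
          have : z = 1 / (4 * (k : ℝ)) * n := by rw [hzdef]; ring
          rw [this, mul_pow]; ring
  have hzp : 0 < z ^ (k - 1) := by positivity
  have hfin : z ^ (k - 1) ≤ z ^ (k - 1) / 2 := by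
    calc z ^ (k - 1) ≤ (k.factorial : ℝ) ^ 2 * ((N1 : ℝ) * (N2 : ℝ)) := hprod
      _ ≤ (k.factorial : ℝ) ^ 2 * (z ^ (k - 1) / (2 * (k.factorial : ℝ) ^ 2)) := by
          apply mul_le_mul_of_nonneg_left _ (by positivity)
          linarith
      _ = z ^ (k - 1) / 2 := by field_simp
  linarith

/-- balancing, second case -/
theorem bl2 : S_BL2 := by
  intro k hk
  have hk3 : (3 : ℝ) ≤ (k : ℝ) := by exact_mod_cast hk
  have hk0 : (0 : ℝ) < (k : ℝ) := by linarith
  have hkf : (0 : ℝ) < (k.factorial : ℝ) := by exact_mod_cast k.factorial_pos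
  refine ⟨min (1 / (4 * (k : ℝ) ^ 2)) ((1 / (4 * (k : ℝ))) ^ (k - 1) / (2 * (k.factorial : ℝ) ^ 2)),
    ?_, 8 * k ^ 2, ?_⟩
  · apply lt_min <;> positivity
  intro V _ _ hn H hU A B X hT σ hσ
  set δ : ℝ := min (1 / (4 * (k : ℝ) ^ 2))
    ((1 / (4 * (k : ℝ))) ^ (k - 1) / (2 * (k.factorial : ℝ) ^ 2)) with hδ
  have hδ0 : 0 < δ := by rw [hδ]; apply lt_min <;> positivity
  have main : ∀ i : ℕ, i ≤ σ → ∃ M ⊆ H, Mtch M ∧ M.card = i ∧
      ∀ e ∈ M, e ⊆ A ∪ B ∧ (e ∩ A).card = 2 := by
    intro i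
    induction i with
    | zero =>
      intro _
      refine ⟨∅, Finset.empty_subset _, ?_, rfl, ?_⟩
      · intro e he; simp at he
      · intro e he; simp at he
    | succ i ih =>
      intro hi
      obtain ⟨M, hMH, hMm, hMc, hMt⟩ := ih (by omega)
      have hYc : (M.biUnion id).card ≤ M.card * k := by
        apply Finset.card_biUnion_le_card_mul
        intro e he
        exact (hU e (hMH he)).le
      have hYc' : ((M.biUnion id).card : ℝ) ≤ (k : ℝ) * (δ * (Fintype.card V : ℝ)) := by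
        have h1 : ((M.biUnion id).card : ℝ) ≤ (i : ℝ) * (k : ℝ) := by
          rw [hMc] at hYc; exact_mod_cast hYc
        have h2 : (i : ℝ) ≤ (σ : ℝ) := by exact_mod_cast (by omega : i ≤ σ)
        have h3 : (i : ℝ) * (k : ℝ) ≤ (δ * (Fintype.card V : ℝ)) * (k : ℝ) :=
          mul_le_mul_of_nonneg_right (le_trans h2 hσ) hk0.le
        linarith
      obtain ⟨e, heH, heAB, heA, heY⟩ := step k hk δ hδ0 (min_le_left _ _) (min_le_right _ _) hn H A B X
        hT (M.biUnion id) hYc'
      have hdis : ∀ f ∈ M, Disjoint e f := by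
        intro f hf
        apply Finset.disjoint_of_subset_right _ heY
        intro x hx
        rw [Finset.mem_biUnion]
        exact ⟨f, hf, hx⟩
      have heM : e ∉ M := by
        intro he
        have h1 := hdis e he
        rw [Finset.disjoint_self_iff_empty] at h1
        rw [h1] at heA
        simp at heA
      refine ⟨insert e M, ?_, ?_, ?_, ?_⟩
      · intro f hf
        rcases Finset.mem_insert.1 hf with rfl | hf
        · exact heH
        · exact hMH hf
      · intro f hf g hg hfg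
        rcases Finset.mem_insert.1 hf with hfe | hf'
        · rcases Finset.mem_insert.1 hg with hge | hg'
          · exact absurd (hfe.trans hge.symm) hfg
          · rw [hfe]; exact hdis g hg'
        · rcases Finset.mem_insert.1 hg with hge | hg'
          · rw [hge]; exact (hdis f hf').symm
          · exact hMm f hf' g hg' hfg
      · rw [Finset.card_insert_of_notMem heM, hMc]
      · intro f hf
        rcases Finset.mem_insert.1 hf with rfl | hf
        · exact ⟨heAB, heA⟩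
        · exact hMt f hf
  exact main σ le_rfl

end Pool.Agent.W351.SAM
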